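import Pool.Agent.R267.CondFinal
import Pool.Agent.R267.Renorm

set_option autoImplicit false

open Filter Topology
open scoped ENNReal

/-!
There is a reflexive Banach space (real or complex) with a conditional Schauder basis which has
Property (A).
-/

namespace Pool.Agent.Results.MP_65ccae_an.ReflexivePropertyA

section defs

variable (𝕜 : Type) [RCLike 𝕜] {E : Type} [NormedAddCommGroup E] [NormedSpace 𝕜 E]

/-- `x` is a Schauder basis of `E` over the scalar field `𝕜` -/
def SchauderBasis (x : ℕ → E) : Prop :=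
  ∀ y : E, ∃! a : ℕ → 𝕜, Tendsto (fun m => ∑ n ∈ Finset.range m, a n • x n) atTop (𝓝 y)

/-- every expansion converges unconditionally -/
def Unconditional (x : ℕ → E) : Prop :=
  ∀ (y : E) (a : ℕ → 𝕜), Tendsto (fun m => ∑ n ∈ Finset.range m, a n • x n) atTop (𝓝 y) →
    HasSum (fun n => a n • x n) y

variable {𝕜}

/-- the sequence `b` is a greedy rearrangement of the sequence `a` -/
def GreedyRearrangement (a b : ℕ → 𝕜) : Prop :=
  ∃ π : Equiv.Perm ℕ, (∀ n, ‖b (π n)‖ = ‖a n‖) ∧
    ∀ k, 0 < ‖a k‖ → (∃ n, ‖a k‖ < ‖a n‖) → π k = k ∧ b k = a k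

variable (𝕜)

/-- Property (A) -/
def PropertyA (x : ℕ → E) : Prop :=
  ∀ (y z : E) (a b : ℕ → 𝕜),
    Tendsto (fun m => ∑ n ∈ Finset.range m, a n • x n) atTop (𝓝 y) →
    Tendsto (fun m => ∑ n ∈ Finset.range m, b n • x n) atTop (𝓝 z) →
    GreedyRearrangement a b → ‖y‖ = ‖z‖

variable (E) in
/-- the canonical map into the bidual is onto -/
def Reflexive : Prop := Function.Surjective (NormedSpace.inclusionInDoubleDual 𝕜 E)

end defs

theorem result (𝕜 : Type) [RCLike 𝕜] :
    ∃ (E : Type) (_ : NormedAddCommGroup E) (_ : NormedSpace 𝕜 E) (_ : CompleteSpace E),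
      Reflexive 𝕜 E ∧
      ∃ x : ℕ → E, SchauderBasis 𝕜 x ∧ ¬ Unconditional 𝕜 x ∧ PropertyA 𝕜 x := by
  obtain ⟨N, x, xs, hN, hbi, hexp, huniq, ⟨y0, hy0⟩, hA, -, -⟩ :=
    Pool.Agent.R267.CF.exists_l2 𝕜
  obtain ⟨e, he⟩ := Pool.Agent.R267.RN.exists_iso N hN
  refine ⟨Pool.Agent.R267.RN.Ren N hN, inferInstance, inferInstance, ?_, ?_,
    fun n => e.symm (x n), ?_, ?_, ?_⟩
  · exact (completeSpace_congr (e := e.toEquiv) e.isUniformEmbedding).mpr inferInstance
  · exact Pool.Agent.R267.RN.reflexive_congr e Pool.Agent.R267.RN.reflexive_hilbert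
  · intro y
    refine ⟨fun n => xs n (e y), ?_, fun a ha => ?_⟩
    · have h1 := (e.symm.continuous.tendsto _).comp (hexp (e y))
      rw [e.symm_apply_apply] at h1
      refine h1.congr fun m => ?_
      simp only [Function.comp_apply, map_sum, map_smul]
    · funext n
      refine huniq (e y) a ?_ n
      refine ((e.continuous.tendsto _).comp ha).congr fun m => ?_
      simp only [Function.comp_apply, map_sum, map_smul, e.apply_symm_apply]
  · intro hU
    apply hy0
    have h1 := hU (e.symm y0) (fun n => xs n y0) ?_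
    · have h2 := h1.summable.map e e.continuous
      refine h2.congr fun n => ?_
      simp only [Function.comp_apply, map_smul, e.apply_symm_apply]
    · refine ((e.symm.continuous.tendsto _).comp (hexp y0)).congr fun m => ?_
      simp only [Function.comp_apply, map_sum, map_smul]
  · intro y z a b ha hb hab
    have hcoef : ∀ (y : Pool.Agent.R267.RN.Ren N hN) (a : ℕ → 𝕜),
        Tendsto (fun m => ∑ n ∈ Finset.range m, a n • e.symm (x n)) atTop (𝓝 y) →
        a = fun n => xs n (e y) := by
      intro y a ha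
      funext n
      refine huniq (e y) a ?_ n
      refine ((e.continuous.tendsto _).comp ha).congr fun m => ?_
      simp only [Function.comp_apply, map_sum, map_smul, e.apply_symm_apply]
    rw [hcoef y a ha, hcoef z b hb] at hab
    have h1 := hA _ _ hab
    rw [he, he] at h1
    exact h1

end Pool.Agent.Results.MP_65ccae_an.ReflexivePropertyA
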